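import Pool.Agent.Helper95.KZ.Goals

/-!
# Project KZ, packet JMP (no `SlcStmt` needed)
-/

set_option autoImplicit false

namespace Pool.Agent.Helper96.KZ

open Pool.Agent.Helper52.Wq2 Pool.Agent.Helper61.NW Pool.Agent.Helper95.KZ

universe u

variable {Γ : Type u} [Group Γ] {S : Set Γ}

/-- `y` is reached from `x` outside of `l` -/
def Rc (S l : Set Γ) : Γ → Γ → Prop :=
  Relation.ReflTransGen (fun x y => (cay S).Adj x y ∧ y ∉ l)

theorem rc_fin (l : Set Γ) {p q : Γ} (hp : p ∉ l) (h : Rc S l p q) :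
    ∃ W : Set Γ, W.Finite ∧ Conn (cay S) W ∧ Disjoint W l ∧ p ∈ W ∧ q ∈ W := by
  induction h with
  | refl =>
    exact ⟨{p}, Set.finite_singleton p, conn_singleton _ p, Set.disjoint_singleton_left.2 hp,
      rfl, rfl⟩
  | tail _ h1 ih =>
    obtain ⟨W, h2, h3, h4, h5, h6⟩ := ih
    rename_i b c _
    refine ⟨W ∪ {c}, h2.union (Set.finite_singleton c), h3.union (conn_singleton _ c) h6 rfl h1.1,
      ?_, Or.inl h5, Or.inr rfl⟩
    exact Set.disjoint_union_left.2 ⟨h4, Set.disjoint_singleton_left.2 h1.2⟩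

theorem rc_symm (l : Set Γ) {p q : Γ} (hp : p ∉ l) (h : Rc S l p q) : Rc S l q p ∧ q ∉ l := by
  induction h with
  | refl => exact ⟨Relation.ReflTransGen.refl, hp⟩
  | tail _ h1 ih => exact ⟨Relation.ReflTransGen.head ⟨h1.1.symm, ih.2⟩ ih.1, h1.2⟩

theorem adj_left (hS : IsGen S) (k x y : Γ) (h : (cay S).Adj x y) : (cay S).Adj (k * x) (k * y) := by
  rw [cay_adj hS] at h ⊢
  have e : (k * x)⁻¹ * (k * y) = x⁻¹ * y := by group
  rw [e]
  exact h

/-- a set without boundary is everything -/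
theorem exists_bd (hS : IsGen S) (U : Set Γ) (hU : U.Nonempty) (hU' : ∃ y, y ∉ U) :
    ∃ x ∈ U, ∃ y, y ∉ U ∧ (cay S).Adj x y := by
  by_contra hcon
  push Not at hcon
  have key : ∀ g : Γ, ∀ x, x ∈ U ↔ x * g ∈ U := by
    intro g
    have hg : g ∈ Subgroup.closure S := by rw [hS.1]; exact Subgroup.mem_top g
    induction hg using Subgroup.closure_induction with
    | mem t ht =>
      intro x
      have hadj : (cay S).Adj x (x * t) := cay_adj_mul hS x ht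
      constructor
      · intro hx
        by_contra h
        exact hcon x hx _ h hadj
      · intro hx
        by_contra h
        exact hcon _ hx x h hadj.symm
    | one => intro x; rw [mul_one]
    | mul a b _ _ ha hb => intro x; rw [ha x, hb (x * a), mul_assoc]
    | inv a _ ha =>
      intro x
      have := ha (x * a⁻¹)
      rw [inv_mul_cancel_right] at this
      exact this.symm
  obtain ⟨x, hx⟩ := hU
  obtain ⟨y, hy⟩ := hU'
  apply hy
  have := (key (x⁻¹ * y) x).1 hx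
  rwa [mul_inv_cancel_left] at this

theorem meets (hS : IsGen S) (k : Γ) (o : ℕ) (ho : 0 < o) (hk : k ^ o = 1) (l : Set Γ)
    (hl : l.Nonempty) (hkl : ∀ x ∈ l, k * x ∉ l) (R : Set Γ) (hR : R.Nonempty)
    (hRl : ∀ x ∈ R, x ∉ l) (hkR : ∀ x ∈ R, k * x ∈ R) : ∃ x ∈ l, ∃ p ∈ R, Rc S l p (k * x) := by
  by_contra hcon
  push Not at hcon
  set U : Set Γ := {x | ∃ p ∈ R, Rc S l p x} with hU
  have hUl : ∀ x ∈ U, x ∉ l := by
    rintro x ⟨p, hp, h⟩
    exact (rc_symm l (hRl p hp) h).2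
  -- powers of `k`
  have hkRn : ∀ n : ℕ, ∀ x ∈ R, k ^ n * x ∈ R := by
    intro n
    induction n with
    | zero => intro x hx; rw [pow_zero, one_mul]; exact hx
    | succ n ih => intro x hx; rw [pow_succ', mul_assoc]; exact hkR _ (ih x hx)
  have hinv : k⁻¹ = k ^ (o - 1) := by
    rw [inv_eq_iff_mul_eq_one, ← pow_succ', Nat.sub_add_cancel ho, hk]
  have hkR' : ∀ x ∈ R, k⁻¹ * x ∈ R := by
    intro x hx
    rw [hinv]
    exact hkRn _ x hx
  have hkU : ∀ x ∈ U, k⁻¹ * x ∈ U := by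
    rintro x ⟨p, hp, h⟩
    refine ⟨k⁻¹ * p, hkR' p hp, ?_⟩
    induction h with
    | refl => exact Relation.ReflTransGen.refl
    | tail h0 h1 ih =>
      rename_i b c
      refine ih.tail ⟨adj_left hS _ _ _ h1.1, ?_⟩
      intro hc
      have h2 := hcon (k⁻¹ * c) hc p hp
      rw [mul_inv_cancel_left] at h2
      exact h2 (h0.tail h1)
  have hkUn : ∀ n : ℕ, ∀ x ∈ U, k⁻¹ ^ n * x ∈ U := by
    intro n
    induction n with
    | zero => intro x hx; rw [pow_zero, one_mul]; exact hx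
    | succ n ih => intro x hx; rw [pow_succ', mul_assoc]; exact hkU _ (ih x hx)
  have hk' : k = k⁻¹ ^ (o - 1) := by
    rw [inv_pow, ← hinv, inv_inv]
  obtain ⟨p₀, hp₀⟩ := hR
  obtain ⟨y₀, hy₀⟩ := hl
  obtain ⟨x, hx, y, hy, hadj⟩ := exists_bd hS U ⟨p₀, p₀, hp₀, Relation.ReflTransGen.refl⟩
    ⟨y₀, fun h => hUl y₀ h hy₀⟩
  have hyl : y ∈ l := by
    by_contra h
    obtain ⟨p, hp, hpx⟩ := hx
    exact hy ⟨p, hp, hpx.tail ⟨hadj, h⟩⟩
  have hy1 : k⁻¹ * y ∉ l := by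
    intro h
    have := hkl _ h
    rw [mul_inv_cancel_left] at this
    exact this hyl
  have hy2 : k⁻¹ * y ∈ U := by
    obtain ⟨p, hp, hpx⟩ := hkU x hx
    exact ⟨p, hp, hpx.tail ⟨adj_left hS _ _ _ hadj, hy1⟩⟩
  apply hy
  have := hkUn (o - 1) _ hy2
  rw [← hk', mul_inv_cancel_left] at this
  exact this

/-- a connected set disjoint from `l` is connected by `Rc` -/
theorem rc_conn (l s : Set Γ) (hs : Conn (cay S) s) (hsl : ∀ x ∈ s, x ∉ l) {x y : Γ}
    (hx : x ∈ s) (hy : y ∈ s) : Rc S l x y := by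
  have h := hs.2 {z | z ∈ s ∧ Rc S l x z} (fun z hz => hz.1) ⟨x, hx, Relation.ReflTransGen.refl⟩
    (fun a ha b hb hab => ⟨hb, ha.2.tail ⟨hab, hsl b hb⟩⟩)
  exact (h hy).2

theorem jmp : JmpStmt.{u} := by
  intro Γ _ S a b k B hP o ho hk l hl hkl L hL hh c
  have hS := hP.gen
  obtain ⟨y₀, hy₀⟩ := hl.1
  set c' : ℤ := max c (L + 1) with hc'
  have h1 : c ≤ c' := le_max_left _ _
  have h2 : L + 1 ≤ c' := le_max_right _ _
  have hkSl : ∀ P : ℤ → Prop, ∀ x ∈ Sl a b B P, k * x ∈ Sl a b B P := by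
    rintro P x ⟨i, j, hj, z, hz, rfl⟩
    refine ⟨i, j, hj, k * z, hP.kB z hz, ?_⟩
    have c1 : Commute k (a ^ i) := (show Commute k a from hP.ak.symm).zpow_right i
    have c2 : Commute k (b ^ j) := (show Commute k b from hP.bk.symm).zpow_right j
    have c3 : Commute k (a ^ i * b ^ j) := c1.mul_right c2
    rw [← mul_assoc, c3.eq, mul_assoc]
  obtain ⟨x1, hx1, p1, hp1, hr1⟩ := meets hS k o ho hk l ⟨y₀, hy₀⟩ hkl
    (Sl a b B (fun j => c' ≤ j)) ⟨a ^ (0 : ℤ) * b ^ c' * 1, 0, c', le_rfl, 1, hP.one, rfl⟩ (by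
      rintro x ⟨i, j, hj, z, hz, rfl⟩ hxl
      have := hh i j z hz hxl
      rw [abs_le] at this
      have hj' : c' ≤ j := hj
      omega) (hkSl _)
  obtain ⟨x2, hx2, p2, hp2, hr2⟩ := meets hS k o ho hk l ⟨y₀, hy₀⟩ hkl
    (Sl a b B (fun j => j ≤ -c')) ⟨a ^ (0 : ℤ) * b ^ (-c') * 1, 0, -c', le_rfl, 1, hP.one, rfl⟩ (by
      rintro x ⟨i, j, hj, z, hz, rfl⟩ hxl
      have := hh i j z hz hxl
      rw [abs_le] at this
      have hj' : j ≤ -c' := hj
      omega) (hkSl _)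
  have hp1l : p1 ∉ l := by
    obtain ⟨i, j, hj, z, hz, rfl⟩ := hp1
    intro hxl
    have := hh i j z hz hxl
    rw [abs_le] at this
    have hj' : c' ≤ j := hj
    omega
  have hp2l : p2 ∉ l := by
    obtain ⟨i, j, hj, z, hz, rfl⟩ := hp2
    intro hxl
    have := hh i j z hz hxl
    rw [abs_le] at this
    have hj' : j ≤ -c' := hj
    omega
  -- the translated line
  have hkc : Conn (cay S) ((fun x => k * x) '' l) :=
    hl.image _ (fun x _ y _ hxy => Or.inr (adj_left hS k x y hxy))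
  have h12 : Rc S l (k * x1) (k * x2) := by
    refine rc_conn l _ hkc ?_ ⟨x1, hx1, rfl⟩ ⟨x2, hx2, rfl⟩
    rintro _ ⟨x, hx, rfl⟩
    exact hkl x hx
  have hr : Rc S l p1 p2 := (hr1.trans h12).trans (rc_symm l hp2l hr2).1
  obtain ⟨W, w1, w2, w3, w4, w5⟩ := rc_fin l hp1l hr
  refine ⟨W, w1, w2, w3, ⟨p1, w4, ?_⟩, ⟨p2, w5, ?_⟩⟩
  · obtain ⟨i, j, hj, z, hz, e⟩ := hp1
    exact ⟨i, j, h1.trans hj, z, hz, e⟩
  · obtain ⟨i, j, hj, z, hz, e⟩ := hp2
    refine ⟨i, j, ?_, z, hz, e⟩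
    have hj' : j ≤ -c' := hj
    show j ≤ -c
    omega

end Pool.Agent.Helper96.KZ
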